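import Pool.Agent.Y444.RP.Stm2

/-!
# A well-order with bounded countable sets (author helper410)
-/

set_option autoImplicit false

open Set Cardinal Ordinal

namespace Pool.Agent.Y410.RP

open Pool.Agent.Y444.RP

theorem countable_Iio (a : (ℵ₁ : Cardinal.{0}).ord.ToType) : (Iio a).Countable := by
  rw [← Cardinal.le_aleph0_iff_set_countable]
  have h1 : #(Iio a) < ℵ₁ := Cardinal.mk_Iio_ord_toType a
  exact Order.lt_succ_iff.1 (h1.trans_eq Cardinal.succ_aleph0.symm)

theorem bounded (s : ℕ → (ℵ₁ : Cardinal.{0}).ord.ToType) : ∃ b, ∀ n, s n < b := by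
  by_contra hcon
  push Not at hcon
  have h1 : (Set.univ : Set (ℵ₁ : Cardinal.{0}).ord.ToType).Countable := by
    refine (countable_iUnion (fun n => ?_ : ∀ n : ℕ, (Iic (s n)).Countable)).mono ?_
    · rw [← Iio_insert]
      exact (countable_Iio (s n)).insert (s n)
    · intro b _
      obtain ⟨n, hn⟩ := hcon b
      exact mem_iUnion.2 ⟨n, hn⟩
  have hWcard : #((ℵ₁ : Cardinal.{0}).ord.ToType) = ℵ₁ := Cardinal.mk_ord_toType _
  rw [← Cardinal.le_aleph0_iff_set_countable, Cardinal.mk_univ, hWcard,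
    ← Cardinal.succ_aleph0] at h1
  exact absurd h1 (not_le.2 (Order.lt_succ _))

theorem t : WexStm :=
  ⟨(ℵ₁ : Cardinal.{0}).ord.ToType, inferInstance, inferInstance,
    ⟨(bounded (fun _ => (Classical.choice (by
      rw [← Cardinal.mk_ne_zero_iff, Cardinal.mk_ord_toType]
      exact (Cardinal.aleph_pos 1).ne')))).choose⟩, bounded⟩

end Pool.Agent.Y410.RP
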